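import Mathlib
import Pool.Agent.Lib.MP_fbbbeb_an.Pub
import Pool.Agent.Lib.MP_fbbbeb_an.Pub2
import Pool.Agent.Lib.MP_fbbbeb_an.Cas.All

set_option autoImplicit false

namespace Pool.Agent.Results.MP_fbbbeb_an.Blowup

open Pool.Agent.Lib.MP_fbbbeb_an.Pub

theorem result : ∃ M : Set (E ≃ₗᵢ[ℝ] E), Admissible M ∧ ∃ T : ℝ, 0 < T ∧
    ∃ (u : ℝ → E → E) (p : ℝ → E → ℝ), IsSol M (Set.Ico 0 T) u p ∧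
      (∀ t ∈ Set.Ico 0 T, Pres M (p t) ∧ Scaled (jac (u t))) ∧
      ∫⁻ t in Set.Ioo 0 T, supn (jac (u t)) = ⊤ ∧
      (∀ s ∈ Set.Ico 0 T, ∀ C : ℝ, ∃ t ∈ Set.Ioo s T, ∃ x : E, x ≠ 0 ∧ C < ‖jac (u t) x‖) ∧
      ¬ ∃ (T' : ℝ) (U : ℝ → E → E) (P : ℝ → E → ℝ), T < T' ∧ IsSol M (Set.Ioo 0 T') U P ∧
        ∀ t ∈ Set.Ioo 0 T, ∀ x : E, x ≠ 0 → U t x = u t x := by
  obtain ⟨M, hM, T, hT, u, p, h1, h2, h3, h4, h5, h6⟩ :=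
    Pool.Agent.Lib.MP_fbbbeb_an.Cas.finalPlus Pool.Agent.Lib.MP_fbbbeb_an.Cas.seqSt0
  exact ⟨M, hM, T, hT, u, p, h1, fun t ht => ⟨h2 t ht, h3 t ht⟩, h4, h5, h6⟩

end Pool.Agent.Results.MP_fbbbeb_an.Blowup
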