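import Mathlib
import Pool.Agent.Lib.MP_fbbbeb_an.Pub
import Pool.Agent.Lib.MP_fbbbeb_an.Dyn

set_option autoImplicit false

namespace Pool.Agent.Results.MP_fbbbeb_an.RadialPressure

open Pool.Agent.Lib.MP_fbbbeb_an.Pub

theorem result (M : Set (E ≃ₗᵢ[ℝ] E)) (hM : Admissible M) (T : ℝ) (u : ℝ → E → E) (c : ℝ → ℝ)
    (h : IsSol M (Set.Ioo 0 T) u fun t x => c t * ‖x‖ ^ 2) :
    ∃ U : ℝ → E → E, IsSol M Set.univ U (fun _ _ => 0) ∧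
      ∀ t ∈ Set.Ioo 0 T, ∀ x : E, x ≠ 0 → U t x = u t x := by
  obtain ⟨U, h1, h2⟩ := Pool.Agent.Lib.MP_fbbbeb_an.main (M := M) (u := u) (c := c)
    (fun v hv hi r hr Q hQ => hM v hv (fun x O hO => hi O hO x) r hr Q hQ) T
    ⟨h.1.1, h.1.2, h.2⟩
  exact ⟨U, ⟨⟨h1.1, h1.2.1⟩, h1.2.2⟩, h2⟩

end Pool.Agent.Results.MP_fbbbeb_an.RadialPressure
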